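import Pool.Agent.helper53.ORE.Spec

/-!
# Project ore (MP_561ff4_al): part DRK
-/

set_option autoImplicit false

namespace Pool.Agent.ORE

open Module Pool.Agent.GS

theorem DRK_mat {F : Type} [Field F] (h2 : (2 : F) = 0) (M : Matrix (Fin 2) (Fin 2) F) (s : F)
    (hd : M.det = 1) (ht : M.trace = s) : M * M = s • M + 1 := by
  rw [Matrix.det_fin_two] at hd
  rw [Matrix.trace_fin_two] at ht
  ext i j
  rw [Matrix.mul_apply, Fin.sum_univ_two, Matrix.add_apply, Matrix.smul_apply, smul_eq_mul,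
    ← ht]
  fin_cases i <;> fin_cases j
  · show M 0 0 * M 0 0 + M 0 1 * M 1 0 = (M 0 0 + M 1 1) * M 0 0 + (1 : Matrix (Fin 2) (Fin 2) F) 0 0
    rw [Matrix.one_apply_eq]
    linear_combination -hd - h2
  · show M 0 0 * M 0 1 + M 0 1 * M 1 1 = (M 0 0 + M 1 1) * M 0 1 + (1 : Matrix (Fin 2) (Fin 2) F) 0 1
    rw [Matrix.one_apply_ne (by decide)]
    ring
  · show M 1 0 * M 0 0 + M 1 1 * M 1 0 = (M 0 0 + M 1 1) * M 1 0 + (1 : Matrix (Fin 2) (Fin 2) F) 1 0
    rw [Matrix.one_apply_ne (by decide)]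
    ring
  · show M 1 0 * M 0 1 + M 1 1 * M 1 1 = (M 0 0 + M 1 1) * M 1 1 + (1 : Matrix (Fin 2) (Fin 2) F) 1 1
    rw [Matrix.one_apply_eq]
    linear_combination -hd - h2

theorem DRK_pow {F V K : Type} [Field F] [AddCommGroup V] [Module F V]
    [Field K] [Algebra F K] (Q : QuadraticForm F V) (h2 : (2 : F) = 0) (k : Equiv.Perm V)
    (hk : k ∈ OQ Q) (j : K →ₗ[F] V) (s : F)
    (hs : ∀ c, k (k (j c)) = s • k (j c) + j c) (M : Matrix (Fin 2) (Fin 2) F)
    (hM : M * M = s • M + 1) (i : ℕ) :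
    ∃ A B : F, M ^ i = A • M + B • (1 : Matrix (Fin 2) (Fin 2) F) ∧
      ∀ c, (k ^ i) (j c) = A • k (j c) + B • j c := by
  induction i with
  | zero =>
    refine ⟨0, 1, ?_, fun c => ?_⟩
    · rw [pow_zero, zero_smul, one_smul, zero_add]
    · rw [pow_zero, zero_smul, one_smul, zero_add]
      rfl
  | succ i ih =>
    obtain ⟨A, B, h1, h3⟩ := ih
    refine ⟨s * A + B, A, ?_, fun c => ?_⟩
    · rw [pow_succ, h1, add_mul, smul_mul_assoc, hM, smul_mul_assoc, one_mul]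
      module
    · rw [pow_succ', Equiv.Perm.mul_apply, h3, hk.1.1, hk.1.2, hk.1.2, hs]
      module

theorem DRK (dqi : DQI_stmt) : DRK_stmt := by
  intro F V K _ _ _ _ _ _ _ _ Q h2 k hk σ j hj r hr hr2 hkr h1
  obtain ⟨_, hkk, _, _, hord⟩ := dqi Q h2 k hk σ j hj
  obtain ⟨s, hs⟩ := (finrank_eq_one_iff_of_nonzero' (1 : K) one_ne_zero).1 h1 σ
  have hs0 : s ≠ 0 := by
    intro h
    apply hj.s0
    rw [← hs, h, zero_smul]
  refine ⟨s, hs0, ?_⟩
  intro M hd ht i hi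
  have hM := DRK_mat h2 M s hd ht
  have hs' : ∀ c, k (k (j c)) = s • k (j c) + j c := by
    intro c
    rw [hkk, ← hs, smul_mul_assoc, one_mul, map_smul, hk.1.2]
  obtain ⟨A, B, hA, hB⟩ := DRK_pow Q h2 k hk j s hs' M hM i
  rw [hi] at hA
  have e0 := congrFun (congrFun hA 0) 0
  have e1 := congrFun (congrFun hA 1) 1
  rw [Matrix.add_apply, Matrix.smul_apply, Matrix.smul_apply, Matrix.one_apply_eq, smul_eq_mul,
    smul_eq_mul, mul_one] at e0 e1
  rw [Matrix.trace_fin_two] at ht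
  have hAs : A * s = 0 := by
    rw [← ht]
    linear_combination -e0 - e1 + (1 - B) * h2
  have hA0 : A = 0 := (mul_eq_zero.1 hAs).resolve_right hs0
  have hB1 : B = 1 := by
    rw [hA0, zero_mul, zero_add] at e0
    exact e0.symm
  apply hord r hr hkr i
  intro c
  rw [hB, hA0, hB1, zero_smul, one_smul, zero_add]

end Pool.Agent.ORE
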